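import Mathlib

/-!
# MP_2ce84e_co, Q1 and Q2: game domatic numbers of disjoint unions

There is no function expressing `γ_A(G₁ ∪ G₂)` (or `γ_B(G₁ ∪ G₂)`) through the four numbers
`γ_A(G₁), γ_B(G₁), γ_A(G₂), γ_B(G₂)`.

The triangle `K₃` and the union `2K₃` of two triangles both have `γ_A = γ_B = 2`, but
`γ_A(K₃ ∪ K₂) = 2`, `γ_A(2K₃ ∪ K₂) = 1`, `γ_B(K₃ ∪ K₂) = 1`, `γ_B(2K₃ ∪ K₂) = 2`.
-/

set_option autoImplicit false

namespace Pool.Agent.Results.MP_2ce84e_co.NoFunction

open scoped SimpleGraph

variable {V : Type*} [Fintype V] [DecidableEq V]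

/-- Every colour occurs in every closed neighbourhood. -/
def Good (G : SimpleGraph V) {k : ℕ} (c : V → Option (Fin k)) : Prop :=
  ∀ v : V, ∀ i : Fin k, ∃ u, (u = v ∨ G.Adj v u) ∧ c u = some i

/-- Alice wins the game with palette `Fin k` from the position `c`, when `m` moves remain and the
Boolean says whether it is Alice's turn.  A move colours an uncoloured vertex. -/
def Wins (G : SimpleGraph V) (k : ℕ) : ℕ → Bool → (V → Option (Fin k)) → Prop
  | 0, _, c => Good G c
  | m + 1, true, c => ∃ v : V, ∃ i : Fin k, c v = none ∧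
      Wins G k m false (Function.update c v (some i))
  | m + 1, false, c => ∀ v : V, ∀ i : Fin k, c v = none →
      Wins G k m true (Function.update c v (some i))

/-- Alice wins the A-game (she moves first) with `k` colours. -/
def WinsA (G : SimpleGraph V) (k : ℕ) : Prop := Wins G k (Fintype.card V) true (fun _ => none)

/-- Alice wins the B-game (Bob moves first) with `k` colours. -/
def WinsB (G : SimpleGraph V) (k : ℕ) : Prop := Wins G k (Fintype.card V) false (fun _ => none)

/-- The game domatic number `γ_A(G)`: the largest `k ≥ 1` such that Alice wins the A-game. -/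
noncomputable def gammaA (G : SimpleGraph V) : ℕ := sSup {k | 1 ≤ k ∧ WinsA G k}

/-- The delayed game domatic number `γ_B(G)`. -/
noncomputable def gammaB (G : SimpleGraph V) : ℕ := sSup {k | 1 ≤ k ∧ WinsB G k}

/-! ### Verifying strategies -/

/-- The strategy `σ` of Alice wins (the final positions are tested with `g`). -/
def StratA (k : ℕ) (g : (V → Option (Fin k)) → Bool) (σ : (V → Option (Fin k)) → V × Fin k) :
    ℕ → Bool → (V → Option (Fin k)) → Prop
  | 0, _, c => g c = true
  | m + 1, true, c => c (σ c).1 = none ∧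
      StratA k g σ m false (Function.update c (σ c).1 (some (σ c).2))
  | m + 1, false, c => ∀ v : V, ∀ i : Fin k, c v = none →
      StratA k g σ m true (Function.update c v (some i))

/-- The strategy `σ` of Bob wins (the final positions are tested with `g`). -/
def StratB (k : ℕ) (g : (V → Option (Fin k)) → Bool) (σ : (V → Option (Fin k)) → V × Fin k) :
    ℕ → Bool → (V → Option (Fin k)) → Prop
  | 0, _, c => g c = false
  | m + 1, false, c => c (σ c).1 = none ∧
      StratB k g σ m true (Function.update c (σ c).1 (some (σ c).2))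
  | m + 1, true, c => ∀ v : V, ∀ i : Fin k, c v = none →
      StratB k g σ m false (Function.update c v (some i))

instance decStratA (k : ℕ) (g : (V → Option (Fin k)) → Bool)
    (σ : (V → Option (Fin k)) → V × Fin k) :
    ∀ (m : ℕ) (t : Bool) (c : V → Option (Fin k)), Decidable (StratA k g σ m t c)
  | 0, _, c => inferInstanceAs (Decidable (g c = true))
  | m + 1, true, c => @instDecidableAnd _ _ _ (decStratA k g σ m false _)
  | m + 1, false, c => by
      have : ∀ v i, Decidable (StratA k g σ m true (Function.update c v (some i))) :=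
        fun v i => decStratA k g σ m true _
      unfold StratA
      infer_instance

instance decStratB (k : ℕ) (g : (V → Option (Fin k)) → Bool)
    (σ : (V → Option (Fin k)) → V × Fin k) :
    ∀ (m : ℕ) (t : Bool) (c : V → Option (Fin k)), Decidable (StratB k g σ m t c)
  | 0, _, c => inferInstanceAs (Decidable (g c = false))
  | m + 1, false, c => @instDecidableAnd _ _ _ (decStratB k g σ m true _)
  | m + 1, true, c => by
      have : ∀ v i, Decidable (StratB k g σ m false (Function.update c v (some i))) :=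
        fun v i => decStratB k g σ m false _
      unfold StratB
      infer_instance

/-- Test of the final position for a disjoint union of cliques listed in `L`. -/
def test {k : ℕ} (L : List (List V)) (c : V → Option (Fin k)) : Bool :=
  L.all (fun K => (List.finRange k).all (fun i => K.any (fun u => c u == some i)))

omit [Fintype V] [DecidableEq V] in
theorem test_iff (G : SimpleGraph V) {k : ℕ} (L : List (List V)) (hL1 : ∀ v, ∃ K ∈ L, v ∈ K)
    (hL2 : ∀ K ∈ L, ∃ v ∈ K, ∀ u, u ∈ K → (u = v ∨ G.Adj v u))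
    (hL3 : ∀ K ∈ L, ∀ v ∈ K, ∀ u, (u = v ∨ G.Adj v u) ↔ u ∈ K)
    (c : V → Option (Fin k)) : test L c = true ↔ Good G c := by
  unfold test Good
  simp only [List.all_eq_true, List.any_eq_true, beq_iff_eq, List.mem_finRange, forall_const]
  constructor
  · intro h v i
    obtain ⟨K, hK, hv⟩ := hL1 v
    obtain ⟨u, hu, hc⟩ := h K hK i
    exact ⟨u, (hL3 K hK v hv u).mpr hu, hc⟩
  · intro h K hK i
    obtain ⟨v, hv, _⟩ := hL2 K hK
    obtain ⟨u, hu, hc⟩ := h v i
    exact ⟨u, (hL3 K hK v hv u).mp hu, hc⟩

omit [Fintype V] in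
theorem wins_of_stratA (G : SimpleGraph V) (k : ℕ) (g : (V → Option (Fin k)) → Bool)
    (hg : ∀ c, g c = true ↔ Good G c) (σ : (V → Option (Fin k)) → V × Fin k) :
    ∀ (m : ℕ) (t : Bool) (c : V → Option (Fin k)), StratA k g σ m t c → Wins G k m t c := by
  intro m
  induction m with
  | zero => intro t c h; cases t <;> exact (hg c).mp h
  | succ m ih =>
    intro t c h
    cases t with
    | true => exact ⟨(σ c).1, (σ c).2, h.1, ih _ _ h.2⟩
    | false => exact fun v i hv => ih _ _ (h v i hv)

omit [Fintype V] in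
theorem not_wins_of_stratB (G : SimpleGraph V) (k : ℕ) (g : (V → Option (Fin k)) → Bool)
    (hg : ∀ c, g c = true ↔ Good G c) (σ : (V → Option (Fin k)) → V × Fin k) :
    ∀ (m : ℕ) (t : Bool) (c : V → Option (Fin k)), StratB k g σ m t c → ¬ Wins G k m t c := by
  intro m
  induction m with
  | zero =>
    intro t c h
    have h' : g c = false := h
    have : ¬ Good G c := by
      rw [← hg c, h']
      simp
    cases t <;> exact this
  | succ m ih =>
    intro t c h
    cases t with
    | true =>
      rintro ⟨v, i, hv, hw⟩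
      exact ih _ _ (h v i hv) hw
    | false =>
      intro hw
      exact ih _ _ h.2 (hw _ _ h.1)

/-- The number of uncoloured vertices. -/
def unc {k : ℕ} (c : V → Option (Fin k)) : ℕ := (Finset.univ.filter (fun v => c v = none)).card

theorem unc_update {k : ℕ} (c : V → Option (Fin k)) (v : V) (i : Fin k) (hv : c v = none) {m : ℕ}
    (hm : unc c = m + 1) : unc (Function.update c v (some i)) = m := by
  unfold unc at *
  have : (Finset.univ.filter (fun u => Function.update c v (some i) u = none))
      = (Finset.univ.filter (fun u => c u = none)).erase v := by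
    ext u
    simp only [Finset.mem_filter, Finset.mem_univ, true_and, Finset.mem_erase]
    by_cases huv : u = v
    · subst huv; simp
    · simp [huv]
  rw [this, Finset.card_erase_of_mem (by simp [hv]), hm]
  rfl

omit [DecidableEq V] in
theorem unc_pos {k : ℕ} (c : V → Option (Fin k)) (v : V) (hv : c v = none) : 1 ≤ unc c :=
  Finset.card_pos.mpr ⟨v, by simp [hv]⟩

omit [DecidableEq V] in
theorem exists_of_unc {k : ℕ} (c : V → Option (Fin k)) {m : ℕ} (hm : unc c = m + 1) :
    ∃ v, c v = none := by
  have hne : (Finset.univ.filter (fun v => c v = none)).Nonempty := by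
    rw [← Finset.card_pos]
    unfold unc at hm
    omega
  obtain ⟨v, hv⟩ := hne
  exact ⟨v, by simpa using hv⟩

/-- From a position won by Alice a good final position extending it can be reached. -/
theorem exists_good (G : SimpleGraph V) (k : ℕ) (hk : 1 ≤ k) :
    ∀ (m : ℕ) (t : Bool) (c : V → Option (Fin k)), unc c = m → Wins G k m t c →
      ∃ c' : V → Option (Fin k), Good G c' ∧ ∀ v i, c v = some i → c' v = some i := by
  intro m
  induction m with
  | zero => intro t c _ h; cases t <;> exact ⟨c, h, fun v i h => h⟩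
  | succ m ih =>
    intro t c hc h
    have key : ∀ v i, c v = none → ∀ c' : V → Option (Fin k),
        (∀ u j, Function.update c v (some i) u = some j → c' u = some j) →
        ∀ u j, c u = some j → c' u = some j := by
      intro v i hv c' h' u j huj
      apply h'
      have : u ≠ v := by
        rintro rfl
        rw [hv] at huj
        cases huj
      rw [Function.update_of_ne this, huj]
    cases t with
    | true =>
      obtain ⟨v, i, hv, hw⟩ := h
      obtain ⟨c', h1, h2⟩ := ih _ _ (unc_update c v i hv hc) hw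
      exact ⟨c', h1, key v i hv c' h2⟩
    | false =>
      obtain ⟨v, hv⟩ := exists_of_unc c hc
      obtain ⟨c', h1, h2⟩ := ih _ _ (unc_update c v ⟨0, hk⟩ hv hc) (h v ⟨0, hk⟩ hv)
      exact ⟨c', h1, key v ⟨0, hk⟩ hv c' h2⟩

theorem le_of_good (G : SimpleGraph V) [DecidableRel G.Adj] (k : ℕ) (c : V → Option (Fin k))
    (h : Good G c) (v : V) : k ≤ (Finset.univ.filter (fun u => u = v ∨ G.Adj v u)).card := by
  classical
  choose f hf using h v
  have hinj : Function.Injective f := by
    intro i j hij
    have h1 := (hf i).2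
    rw [hij, (hf j).2] at h1
    exact (Option.some.inj h1).symm
  have : (Finset.univ.image f) ⊆ (Finset.univ.filter (fun u => u = v ∨ G.Adj v u)) := by
    intro u hu
    obtain ⟨i, _, rfl⟩ := Finset.mem_image.mp hu
    simpa using (hf i).1
  have h2 := Finset.card_le_card this
  rwa [Finset.card_image_of_injective _ hinj, Finset.card_univ, Fintype.card_fin] at h2

theorem le_of_winsA (G : SimpleGraph V) [DecidableRel G.Adj] (k : ℕ) (hk : 1 ≤ k)
    (h : WinsA G k) (v : V) : k ≤ (Finset.univ.filter (fun u => u = v ∨ G.Adj v u)).card := by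
  obtain ⟨c, hc, _⟩ := exists_good G k hk _ _ _ (by simp [unc, Finset.card_univ]) h
  exact le_of_good G k c hc v

theorem le_of_winsB (G : SimpleGraph V) [DecidableRel G.Adj] (k : ℕ) (hk : 1 ≤ k)
    (h : WinsB G k) (v : V) : k ≤ (Finset.univ.filter (fun u => u = v ∨ G.Adj v u)).card := by
  obtain ⟨c, hc, _⟩ := exists_good G k hk _ _ _ (by simp [unc, Finset.card_univ]) h
  exact le_of_good G k c hc v

theorem sSup_eq {S : Set ℕ} {a : ℕ} (ha : a ∈ S) (h : ∀ b ∈ S, b ≤ a) : sSup S = a :=
  IsGreatest.csSup_eq ⟨ha, h⟩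

/-! ### Disjoint unions -/

section unions

variable {W : Type*} [Fintype W] [DecidableEq W]

theorem unc_elim {k : ℕ} (c₁ : V → Option (Fin k)) (c₂ : W → Option (Fin k)) :
    unc (Sum.elim c₁ c₂) = unc c₁ + unc c₂ := by
  unfold unc
  rw [← Finset.card_map (Function.Embedding.inl : V ↪ V ⊕ W),
    ← Finset.card_map (Function.Embedding.inr : W ↪ V ⊕ W), ← Finset.card_union_of_disjoint]
  · congr 1
    ext (u | u) <;> simp
  · rw [Finset.disjoint_left]
    rintro (u | u) <;> simp

/-- If Alice, as second player, wins on both parts and both have an even number of uncoloured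
vertices, then she wins on the union as second player. -/
theorem wins_union (G₁ : SimpleGraph V) (G₂ : SimpleGraph W) (k : ℕ) :
    ∀ (n m₁ m₂ : ℕ) (c₁ : V → Option (Fin k)) (c₂ : W → Option (Fin k)), m₁ + m₂ = n →
      Even m₁ → Even m₂ → unc c₁ = m₁ → unc c₂ = m₂ → Wins G₁ k m₁ false c₁ →
      Wins G₂ k m₂ false c₂ → Wins (G₁ ⊕g G₂) k n false (Sum.elim c₁ c₂) := by
  intro n
  induction n using Nat.strong_induction_on with
  | _ n ih =>
    intro m₁ m₂ c₁ c₂ hn he₁ he₂ hu₁ hu₂ h₁ h₂
    match n, hn with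
    | 0, hn =>
      have e₁ : m₁ = 0 := by omega
      have e₂ : m₂ = 0 := by omega
      subst e₁ e₂
      intro v i
      rcases v with v | v
      · obtain ⟨u, hu, hc⟩ := h₁ v i
        refine ⟨.inl u, ?_, hc⟩
        rcases hu with rfl | hu
        · exact Or.inl rfl
        · exact Or.inr hu
      · obtain ⟨u, hu, hc⟩ := h₂ v i
        refine ⟨.inr u, ?_, hc⟩
        rcases hu with rfl | hu
        · exact Or.inl rfl
        · exact Or.inr hu
    | n + 1, hn =>
      intro v i hv
      rcases v with v | v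
      · have hv' : c₁ v = none := hv
        have hpos := unc_pos c₁ v hv'
        obtain ⟨a, ha⟩ := he₁
        obtain ⟨m, rfl⟩ : ∃ m, m₁ = m + 2 := ⟨m₁ - 2, by omega⟩
        obtain ⟨u, j, hu, hw⟩ := h₁ v i hv'
        have hu1 := unc_update c₁ v i hv' hu₁
        have hu2 := unc_update _ u j hu hu1
        obtain ⟨n', rfl⟩ : ∃ n', n = n' + 1 := ⟨n - 1, by omega⟩
        refine ⟨.inl u, j, ?_, ?_⟩
        · rw [Sum.update_elim_inl]
          exact hu
        · rw [Sum.update_elim_inl, Sum.update_elim_inl]
          exact ih n' (by omega) m m₂ _ _ (by omega) ⟨a - 1, by omega⟩ he₂ hu2 hu₂ hw h₂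
      · have hv' : c₂ v = none := hv
        have hpos := unc_pos c₂ v hv'
        obtain ⟨a, ha⟩ := he₂
        obtain ⟨m, rfl⟩ : ∃ m, m₂ = m + 2 := ⟨m₂ - 2, by omega⟩
        obtain ⟨u, j, hu, hw⟩ := h₂ v i hv'
        have hu1 := unc_update c₂ v i hv' hu₂
        have hu2 := unc_update _ u j hu hu1
        obtain ⟨n', rfl⟩ : ∃ n', n = n' + 1 := ⟨n - 1, by omega⟩
        refine ⟨.inr u, j, ?_, ?_⟩
        · rw [Sum.update_elim_inr]
          exact hu
        · rw [Sum.update_elim_inr, Sum.update_elim_inr]
          exact ih n' (by omega) m₁ m _ _ (by omega) he₁ ⟨a - 1, by omega⟩ hu₁ hu2 h₁ hw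

end unions

/-- The edge. -/
abbrev K2 : SimpleGraph (Fin 2) := ⊤

/-- The position of the edge with `v` coloured `i` first and the other vertex coloured `i` next. -/
def ecol (v i : Fin 2) : Fin 2 → Option (Fin 2) :=
  Function.update (Function.update (fun _ => none) v (some i)) (v + 1) (some i)

theorem ecol_apply : ∀ v i u : Fin 2, ecol v i u = some i := by decide
theorem unc_ecol : ∀ v i : Fin 2, unc (ecol v i) = 0 := by decide
theorem add_one_ne : ∀ i : Fin 2, i + 1 ≠ i := by decide
theorem first_none : ∀ v i : Fin 2,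
    (Function.update (fun _ => none) v (some i) : Fin 2 → Option (Fin 2)) (v + 1) = none := by
  decide

/-- If it is Alice's turn, the edge is untouched and an even number of the other vertices is
uncoloured, then Bob wins with two colours. -/
theorem not_wins_edge (G : SimpleGraph V) :
    ∀ (a : ℕ) (c : V → Option (Fin 2)), unc c = 2 * a →
      ¬ Wins (G ⊕g K2) 2 (2 * a + 2) true (Sum.elim c (fun _ => none)) := by
  intro a
  induction a with
  | zero =>
    intro c hc h
    obtain ⟨v, i, hv, hw⟩ := h
    rcases v with v | v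
    · have := unc_pos c v hv
      omega
    · rw [Sum.update_elim_inr] at hw
      have hw2 := hw (.inr (v + 1)) i (first_none v i)
      rw [Sum.update_elim_inr] at hw2
      obtain ⟨u, hu, hc⟩ := hw2 (.inr v) (i + 1)
      rcases u with u | u
      · rcases hu with hu | hu
        · cases hu
        · simp [SimpleGraph.sum] at hu
      · have h3 : ecol v i u = some (i + 1) := hc
        rw [ecol_apply] at h3
        exact add_one_ne i (Option.some.inj h3).symm
  | succ a ih =>
    intro c hc h
    obtain ⟨v, i, hv, hw⟩ := h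
    rcases v with v | v
    · have hv' : c v = none := hv
      have h1 : unc (Function.update c v (some i)) = 2 * a + 1 := unc_update c v i hv' (by omega)
      obtain ⟨u, hu⟩ := exists_of_unc _ h1
      rw [Sum.update_elim_inl] at hw
      have hw2 := hw (.inl u) 0 hu
      rw [Sum.update_elim_inl] at hw2
      exact ih _ (unc_update _ u 0 hu h1) hw2
    · rw [Sum.update_elim_inr] at hw
      have hw2 := hw (.inr (v + 1)) i (first_none v i)
      rw [Sum.update_elim_inr] at hw2
      obtain ⟨c', hgood, hext⟩ := exists_good _ 2 (by norm_num) _ _ _ (by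
        rw [unc_elim, hc]
        show _ + unc (ecol v i) = _
        rw [unc_ecol, add_zero]) hw2
      obtain ⟨u, hu, hcu⟩ := hgood (.inr v) (i + 1)
      rcases u with u | u
      · rcases hu with hu | hu
        · cases hu
        · simp [SimpleGraph.sum] at hu
      · have := hext (.inr u) i (ecol_apply v i u)
        rw [hcu] at this
        exact add_one_ne i (Option.some.inj this)

/-! ### The strategies -/

/-- The colours used on a list of vertices. -/
def cols {k : ℕ} (c : V → Option (Fin k)) (K : List V) : List (Fin k) := K.filterMap c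

/-- The uncoloured vertices of a list. -/
def free {k : ℕ} (c : V → Option (Fin k)) (K : List V) : List V := K.filter (fun v => (c v).isNone)

/-- Alice's strategy on a disjoint union of cliques (`k = 2`). -/
def alice (L : List (List V)) (d : V) (c : V → Option (Fin 2)) : V × Fin 2 :=
  match L.find? (fun K => (free c K).length == 1 && (cols c K).all (fun x => some x == (cols c K).head?)) with
  | some K => ((free c K).headD d, ((cols c K).headD 0) + 1)
  | none =>
    match L.find? (fun K => (cols c K).length == 1) with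
    | some K => ((free c K).headD d, ((cols c K).headD 0) + 1)
    | none =>
      match L.find? (fun K => (free c K).length == 1) with
      | some K => ((free c K).headD d, 0)
      | none => (((L.find? (fun K => !(free c K).isEmpty)).getD []  |> free c).headD d, 0)

/-- Bob's strategy for three colours on triangles: repeat a colour. -/
def bob3 (L : List (List V)) (d : V) (c : V → Option (Fin 3)) : V × Fin 3 :=
  match L.find? (fun K => !(free c K).isEmpty && !(cols c K).isEmpty) with
  | some K => ((free c K).headD d, (cols c K).headD 0)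
  | none => ((free c L.flatten).headD d, 0)

instance decSum {α β : Type*} (G : SimpleGraph α) (H : SimpleGraph β) [hG : DecidableRel G.Adj]
    [hH : DecidableRel H.Adj] : DecidableRel (G ⊕g H).Adj
  | .inl u, .inl v => hG u v
  | .inr u, .inr v => hH u v
  | .inl _, .inr _ => isFalse (by simp [SimpleGraph.sum])
  | .inr _, .inl _ => isFalse (by simp [SimpleGraph.sum])

/-- The triangle. -/
abbrev K3 : SimpleGraph (Fin 3) := ⊤

/-- Two disjoint triangles. -/
abbrev KK : SimpleGraph (Fin 3 ⊕ Fin 3) := K3 ⊕g K3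

/-- Lists of the cliques. -/
def L1 : List (List (Fin 3)) := [[0, 1, 2]]
/-- Lists of the cliques. -/
def L2 : List (List (Fin 3 ⊕ Fin 3)) := [[.inl 0, .inl 1, .inl 2], [.inr 0, .inr 1, .inr 2]]
theorem t1 {k : ℕ} (c : Fin 3 → Option (Fin k)) : test L1 c = true ↔ Good K3 c :=
  test_iff K3 L1 (by decide +kernel) (by decide +kernel) (by decide +kernel) c

theorem t2 {k : ℕ} (c : Fin 3 ⊕ Fin 3 → Option (Fin k)) : test L2 c = true ↔ Good KK c := by
  refine test_iff KK L2 ?_ ?_ ?_ c
  · rintro (v | v)
    · exact ⟨_, List.mem_cons_self, by fin_cases v <;> simp⟩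
    · exact ⟨_, List.mem_cons_of_mem _ List.mem_cons_self, by fin_cases v <;> simp⟩
  · unfold L2
    simp only [List.mem_cons, List.not_mem_nil, or_false]
    rintro K (rfl | rfl)
    · refine ⟨.inl 0, by simp, ?_⟩
      rintro (u | u) hu <;> fin_cases u <;> simp [SimpleGraph.sum] at hu ⊢
    · refine ⟨.inr 0, by simp, ?_⟩
      rintro (u | u) hu <;> fin_cases u <;> simp [SimpleGraph.sum] at hu ⊢
  · unfold L2
    simp only [List.mem_cons, List.not_mem_nil, or_false]
    rintro K (rfl | rfl) v hv u
    · simp only [List.mem_cons, List.not_mem_nil, or_false] at hv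
      rcases hv with rfl | rfl | rfl <;> rcases u with u | u <;> fin_cases u <;>
        simp [SimpleGraph.sum]
    · simp only [List.mem_cons, List.not_mem_nil, or_false] at hv
      rcases hv with rfl | rfl | rfl <;> rcases u with u | u <;> fin_cases u <;>
        simp [SimpleGraph.sum]

theorem a1 : WinsA K3 2 := wins_of_stratA _ _ _ t1 (alice L1 0) _ _ _ (by decide +kernel)
theorem b1 : WinsB K3 2 := wins_of_stratA _ _ _ t1 (alice L1 0) _ _ _ (by decide +kernel)
theorem a1' : ¬ WinsA K3 3 := not_wins_of_stratB _ _ _ t1 (bob3 L1 0) _ _ _ (by decide +kernel)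
theorem b1' : ¬ WinsB K3 3 := not_wins_of_stratB _ _ _ t1 (bob3 L1 0) _ _ _ (by decide +kernel)
theorem a2 : WinsA KK 2 := wins_of_stratA _ _ _ t2 (alice L2 (.inl 0)) _ _ _ (by decide +kernel)
theorem b2 : WinsB KK 2 := wins_of_stratA _ _ _ t2 (alice L2 (.inl 0)) _ _ _ (by decide +kernel)
theorem a2' : ¬ WinsA KK 3 :=
  not_wins_of_stratB _ _ _ t2 (bob3 L2 (.inl 0)) _ _ _ (by decide +kernel)
theorem b2' : ¬ WinsB KK 3 :=
  not_wins_of_stratB _ _ _ t2 (bob3 L2 (.inl 0)) _ _ _ (by decide +kernel)

theorem tE {k : ℕ} (c : Fin 2 → Option (Fin k)) : test [[0, 1]] c = true ↔ Good K2 c :=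
  test_iff K2 [[0, 1]] (by decide +kernel) (by decide +kernel) (by decide +kernel) c

theorem bE : WinsB K2 2 := wins_of_stratA _ _ _ tE (alice [[0, 1]] 0) _ _ _ (by decide +kernel)

/-- Alice moves in the triangle and then answers in the same part. -/
theorem a3 : WinsA (K3 ⊕g K2) 2 := by
  obtain ⟨v, i, hv, hw⟩ := a1
  refine ⟨.inl v, i, rfl, ?_⟩
  have h0 : (fun _ => none : Fin 3 ⊕ Fin 2 → Option (Fin 2)) =
      Sum.elim (fun _ => none) (fun _ => none) := by
    ext (u | u) <;> rfl
  rw [h0, Sum.update_elim_inl]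
  exact wins_union K3 K2 2 4 2 2 _ _ rfl ⟨1, rfl⟩ ⟨1, rfl⟩
    (unc_update _ v i hv (by decide)) (by decide) hw bE

theorem b3' : ¬ WinsB (K3 ⊕g K2) 2 := by
  intro h
  have hw := h (.inl 0) 0 rfl
  have h0 : (fun _ => none : Fin 3 ⊕ Fin 2 → Option (Fin 2)) =
      Sum.elim (fun _ => none) (fun _ => none) := by
    ext (u | u) <;> rfl
  rw [h0, Sum.update_elim_inl] at hw
  exact not_wins_edge K3 1 _ (unc_update _ 0 0 rfl (by decide)) hw

theorem a4' : ¬ WinsA (KK ⊕g K2) 2 := by
  intro h
  have h0 : (fun _ => none : (Fin 3 ⊕ Fin 3) ⊕ Fin 2 → Option (Fin 2)) =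
      Sum.elim (fun _ => none) (fun _ => none) := by
    ext (u | u) <;> rfl
  unfold WinsA at h
  rw [h0] at h
  exact not_wins_edge KK 3 _ (by decide) h

theorem b4 : WinsB (KK ⊕g K2) 2 := by
  have h0 : (fun _ => none : (Fin 3 ⊕ Fin 3) ⊕ Fin 2 → Option (Fin 2)) =
      Sum.elim (fun _ => none) (fun _ => none) := by
    ext (u | u) <;> rfl
  unfold WinsB
  rw [h0]
  exact wins_union KK K2 2 8 6 2 _ _ rfl ⟨3, rfl⟩ ⟨1, rfl⟩ (by decide) (by decide) b2 bE

theorem gA1 : gammaA K3 = 2 := by
  refine sSup_eq ⟨by norm_num, a1⟩ ?_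
  rintro b ⟨hb, hw⟩
  have h := le_of_winsA _ b hb hw 0
  have h3 : (Finset.univ.filter (fun u => u = 0 ∨ K3.Adj 0 u)).card = 3 := by decide
  rw [h3] at h
  by_contra hcon
  have : b = 3 := by omega
  subst this
  exact a1' hw

theorem gB1 : gammaB K3 = 2 := by
  refine sSup_eq ⟨by norm_num, b1⟩ ?_
  rintro b ⟨hb, hw⟩
  have h := le_of_winsB _ b hb hw 0
  have h3 : (Finset.univ.filter (fun u => u = 0 ∨ K3.Adj 0 u)).card = 3 := by decide
  rw [h3] at h
  by_contra hcon
  have : b = 3 := by omega
  subst this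
  exact b1' hw

theorem gA2 : gammaA KK = 2 := by
  refine sSup_eq ⟨by norm_num, a2⟩ ?_
  rintro b ⟨hb, hw⟩
  have h := le_of_winsA _ b hb hw (.inl 0)
  have h3 : (Finset.univ.filter (fun u => u = Sum.inl 0 ∨ KK.Adj (.inl 0) u)).card = 3 := by decide
  rw [h3] at h
  by_contra hcon
  have : b = 3 := by omega
  subst this
  exact a2' hw

theorem gB2 : gammaB KK = 2 := by
  refine sSup_eq ⟨by norm_num, b2⟩ ?_
  rintro b ⟨hb, hw⟩
  have h := le_of_winsB _ b hb hw (.inl 0)
  have h3 : (Finset.univ.filter (fun u => u = Sum.inl 0 ∨ KK.Adj (.inl 0) u)).card = 3 := by decide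
  rw [h3] at h
  by_contra hcon
  have : b = 3 := by omega
  subst this
  exact b2' hw

theorem one_mem {V : Type*} [Fintype V] [DecidableEq V] (G : SimpleGraph V) :
    ∀ (m : ℕ) (t : Bool) (c : V → Option (Fin 1)), unc c = m → Wins G 1 m t c := by
  intro m
  induction m with
  | zero =>
    intro t c hc
    have hgood : Good G c := by
      intro v i
      refine ⟨v, Or.inl rfl, ?_⟩
      cases h : c v with
      | none => have := unc_pos c v h; omega
      | some j => rw [Subsingleton.elim j i]
    cases t <;> exact hgood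
  | succ m ih =>
    intro t c hc
    cases t with
    | true =>
      obtain ⟨v, hv⟩ := exists_of_unc c hc
      exact ⟨v, 0, hv, ih _ _ (unc_update c v 0 hv hc)⟩
    | false => exact fun v i hv => ih _ _ (unc_update c v i hv hc)

theorem gA3 : gammaA (K3 ⊕g K2) = 2 := by
  refine sSup_eq ⟨by norm_num, a3⟩ ?_
  rintro b ⟨hb, hw⟩
  have h := le_of_winsA _ b hb hw (.inr 0)
  have h3 : (Finset.univ.filter (fun u => u = Sum.inr 0 ∨ (K3 ⊕g K2).Adj (.inr 0) u)).card = 2 := by
    decide
  rwa [h3] at h

theorem gB3 : gammaB (K3 ⊕g K2) = 1 := by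
  refine sSup_eq ⟨by norm_num, one_mem _ _ _ _ (by simp [unc, Finset.card_univ])⟩ ?_
  rintro b ⟨hb, hw⟩
  have h := le_of_winsB _ b hb hw (.inr 0)
  have h3 : (Finset.univ.filter (fun u => u = Sum.inr 0 ∨ (K3 ⊕g K2).Adj (.inr 0) u)).card = 2 := by
    decide
  rw [h3] at h
  by_contra hcon
  have : b = 2 := by omega
  subst this
  exact b3' hw

theorem gA4 : gammaA (KK ⊕g K2) = 1 := by
  refine sSup_eq ⟨by norm_num, one_mem _ _ _ _ (by simp [unc, Finset.card_univ])⟩ ?_
  rintro b ⟨hb, hw⟩
  have h := le_of_winsA _ b hb hw (.inr 0)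
  have h3 : (Finset.univ.filter (fun u => u = Sum.inr 0 ∨ (KK ⊕g K2).Adj (.inr 0) u)).card = 2 := by
    decide
  rw [h3] at h
  by_contra hcon
  have : b = 2 := by omega
  subst this
  exact a4' hw

theorem gB4 : gammaB (KK ⊕g K2) = 2 := by
  refine sSup_eq ⟨by norm_num, b4⟩ ?_
  rintro b ⟨hb, hw⟩
  have h := le_of_winsB _ b hb hw (.inr 0)
  have h3 : (Finset.univ.filter (fun u => u = Sum.inr 0 ∨ (KK ⊕g K2).Adj (.inr 0) u)).card = 2 := by
    decide
  rwa [h3] at h

/-- **Main result.** There is no function `f` (for `γ_A`, respectively for `γ_B`) expressing the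
value of the disjoint union through the four values of the parts. -/
theorem result :
    (¬ ∃ f : ℕ → ℕ → ℕ → ℕ → ℕ, ∀ (V₁ V₂ : Type) [Fintype V₁] [Fintype V₂] [DecidableEq V₁]
        [DecidableEq V₂] [Nonempty V₁] [Nonempty V₂] (G₁ : SimpleGraph V₁) (G₂ : SimpleGraph V₂),
        gammaA (G₁ ⊕g G₂) = f (gammaA G₁) (gammaB G₁) (gammaA G₂) (gammaB G₂)) ∧
    (¬ ∃ f : ℕ → ℕ → ℕ → ℕ → ℕ, ∀ (V₁ V₂ : Type) [Fintype V₁] [Fintype V₂] [DecidableEq V₁]
        [DecidableEq V₂] [Nonempty V₁] [Nonempty V₂] (G₁ : SimpleGraph V₁) (G₂ : SimpleGraph V₂),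
        gammaB (G₁ ⊕g G₂) = f (gammaA G₁) (gammaB G₁) (gammaA G₂) (gammaB G₂)) := by
  constructor
  · rintro ⟨f, hf⟩
    have h1 := hf (Fin 3) (Fin 2) K3 K2
    have h2 := hf (Fin 3 ⊕ Fin 3) (Fin 2) KK K2
    rw [gA1, gB1, gA3] at h1
    rw [gA2, gB2, gA4] at h2
    omega
  · rintro ⟨f, hf⟩
    have h1 := hf (Fin 3) (Fin 2) K3 K2
    have h2 := hf (Fin 3 ⊕ Fin 3) (Fin 2) KK K2
    rw [gA1, gB1, gB3] at h1
    rw [gA2, gB2, gB4] at h2
    omega

end Pool.Agent.Results.MP_2ce84e_co.NoFunction
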